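import Pool.Agent.CMG.Stmts

/-!
# Squad CMG, row KER: integral operators with a continuous kernel are compact
-/

set_option autoImplicit false

open Set Topology MeasureTheory Filter
open scoped BigOperators Pointwise InnerProductSpace

namespace Pool.Agent.CMG.H25

open Pool.Agent.LSG Pool.Agent.CMG

noncomputable section

variable {K : Type} [TopologicalSpace K] [CompactSpace K]
  [TopologicalSpace.MetrizableSpace K] [MeasurableSpace K] [BorelSpace K] (μ : Measure K)
  [IsFiniteMeasure μ]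

/-- the family of the functions `conj κ(x, ·)`. -/
def hk (κ : C(K × K, ℂ)) (x : K) : Lp ℂ 2 μ :=
  ContinuousMap.toLp (E := ℂ) 2 μ ℂ (star (κ.curry x))

theorem hk_cont (κ : C(K × K, ℂ)) : Continuous (hk μ κ) := by
  refine (ContinuousMap.toLp (E := ℂ) 2 μ ℂ).continuous.comp ?_
  exact continuous_star.comp κ.curry.continuous

theorem hk_inner (κ : C(K × K, ℂ)) (x : K) (v : Lp ℂ 2 μ) :
    ⟪hk μ κ x, v⟫_ℂ = ∫ y, κ (x, y) * v y ∂μ := by
  rw [L2.inner_def]
  refine integral_congr_ae ?_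
  filter_upwards [ContinuousMap.coeFn_toLp (E := ℂ) (p := 2) (𝕜 := ℂ) μ (star (κ.curry x))]
    with y hy
  rw [hk, hy]
  simp [mul_comm]

/-- the operator with values in the bounded continuous functions. -/
def bop (κ : C(K × K, ℂ)) (v : Lp ℂ 2 μ) : BoundedContinuousFunction K ℂ :=
  BoundedContinuousFunction.mkOfCompact
    ⟨fun x => ⟪hk μ κ x, v⟫_ℂ, (hk_cont μ κ).inner continuous_const⟩

theorem bop_apply (κ : C(K × K, ℂ)) (v : Lp ℂ 2 μ) (x : K) :
    bop μ κ v x = ⟪hk μ κ x, v⟫_ℂ := rfl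

/-- the bound. -/
theorem hk_bdd (κ : C(K × K, ℂ)) : ∃ C : ℝ, 0 ≤ C ∧ ∀ x, ‖hk μ κ x‖ ≤ C := by
  obtain ⟨C, hC⟩ := (isCompact_range (hk_cont μ κ)).isBounded.exists_norm_le
  refine ⟨max C 0, le_max_right _ _, fun x => (hC _ (mem_range_self x)).trans (le_max_left _ _)⟩

/-- the bounded operator. -/
theorem exists_op (κ : C(K × K, ℂ)) : ∃ S : Lp ℂ 2 μ →L[ℂ] BoundedContinuousFunction K ℂ,
    IsCompactOperator S ∧ ∀ v x, S v x = ⟪hk μ κ x, v⟫_ℂ := by
  obtain ⟨C, hC, hb⟩ := hk_bdd μ κ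
  have hbd : ∀ v, ‖bop μ κ v‖ ≤ C * ‖v‖ := by
    intro v
    rw [BoundedContinuousFunction.norm_le (by positivity)]
    intro x
    rw [bop_apply]
    exact (norm_inner_le_norm _ _).trans (mul_le_mul_of_nonneg_right (hb x) (norm_nonneg _))
  let L : Lp ℂ 2 μ →ₗ[ℂ] BoundedContinuousFunction K ℂ :=
    { toFun := bop μ κ
      map_add' := by
        intro u v
        ext x
        rw [BoundedContinuousFunction.add_apply, bop_apply, bop_apply, bop_apply, inner_add_right]
      map_smul' := by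
        intro c v
        ext x
        rw [RingHom.id_apply, BoundedContinuousFunction.smul_apply, bop_apply, bop_apply,
          inner_smul_right, smul_eq_mul] }
  refine ⟨L.mkContinuous C hbd, ?_, fun v x => rfl⟩
  set A : Set (BoundedContinuousFunction K ℂ) := (bop μ κ) '' Metric.closedBall 0 1 with hA
  refine ⟨closure A, ?_, ?_⟩
  · refine BoundedContinuousFunction.arzela_ascoli (Metric.closedBall (0 : ℂ) C)
      (isCompact_closedBall _ _) A ?_ ?_
    · rintro f x ⟨v, hv, rfl⟩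
      rw [mem_closedBall_zero_iff] at hv ⊢
      rw [bop_apply]
      refine (norm_inner_le_norm _ _).trans ?_
      calc ‖hk μ κ x‖ * ‖v‖ ≤ C * 1 := mul_le_mul (hb x) hv (norm_nonneg _) hC
        _ = C := mul_one C
    · intro x0
      rw [Metric.equicontinuousAt_iff_right]
      intro ε hε
      have h1 : Tendsto (fun x => ‖hk μ κ x0 - hk μ κ x‖) (𝓝 x0) (𝓝 0) := by
        have h2 : Tendsto (fun x => ‖hk μ κ x0 - hk μ κ x‖) (𝓝 x0)
            (𝓝 ‖hk μ κ x0 - hk μ κ x0‖) :=
          (continuous_const.sub (hk_cont μ κ)).norm.tendsto x0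
        simpa using h2
      filter_upwards [h1.eventually (gt_mem_nhds hε)] with x hx
      rintro ⟨f, v, hv, rfl⟩
      rw [mem_closedBall_zero_iff] at hv
      show dist (bop μ κ v x0) (bop μ κ v x) < ε
      rw [dist_eq_norm, bop_apply, bop_apply, ← inner_sub_left]
      refine (norm_inner_le_norm _ _).trans_lt ?_
      calc ‖hk μ κ x0 - hk μ κ x‖ * ‖v‖ ≤ ‖hk μ κ x0 - hk μ κ x‖ * 1 :=
            mul_le_mul_of_nonneg_left hv (norm_nonneg _)
        _ < ε := by rwa [mul_one]
  · refine Filter.mem_of_superset (Metric.closedBall_mem_nhds (0 : Lp ℂ 2 μ) one_pos) ?_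
    intro v hv
    exact subset_closure ⟨v, hv, rfl⟩

/-- **Row KER**. -/
theorem ker : KerStmt := by
  intro K _ _ _ _ _ μ _ κ
  obtain ⟨S, hS, hS2⟩ := exists_op μ κ
  refine ⟨(BoundedContinuousFunction.toLp (E := ℂ) 2 μ ℂ).comp S, ?_, ?_⟩
  · exact hS.clm_comp (BoundedContinuousFunction.toLp (E := ℂ) 2 μ ℂ)
  · intro v
    have h := BoundedContinuousFunction.coeFn_toLp (E := ℂ) 2 μ ℂ (S v)
    filter_upwards [h] with x hx
    rw [ContinuousLinearMap.comp_apply, hx, hS2, hk_inner]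

end

end Pool.Agent.CMG.H25
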